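import Pool.Agent.Y795.PiH.Stm

/-! # Project PH: the determinant at the prime two -/

set_option autoImplicit false

open Polynomial Filter

namespace Pool.Agent.Y434.PiH

open Pool.Agent.H326R2.Pi Pool.Agent.Y795.PiH

theorem norm_prod {ι : Type*} (s : Finset ι) (f : ι → ℚ) :
    padicNorm 2 (∏ i ∈ s, f i) = ∏ i ∈ s, padicNorm 2 (f i) := by
  classical
  induction s using Finset.induction_on with
  | empty => simp
  | insert a s ha ih => rw [Finset.prod_insert ha, Finset.prod_insert ha, padicNorm.mul, ih]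

/-- the ultrametric bound for determinants -/
theorem det_le {n : ℕ} (M : Matrix (Fin n) (Fin n) ℚ) (R : Fin n → ℕ)
    (h : ∀ i j, padicNorm 2 (M i j) ≤ (2 : ℚ) ^ (R i + R j)) :
    padicNorm 2 M.det ≤ (2 : ℚ) ^ (2 * ∑ i, R i) := by
  rw [Matrix.det_apply]
  refine padicNorm.sum_le' (fun σ _ => ?_) (by positivity)
  have h1 : padicNorm 2 (∏ i, M (σ i) i) ≤ (2 : ℚ) ^ (2 * ∑ i, R i) := by
    rw [norm_prod]
    calc ∏ i, padicNorm 2 (M (σ i) i) ≤ ∏ i, (2 : ℚ) ^ (R (σ i) + R i) :=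
          Finset.prod_le_prod (fun i _ => padicNorm.nonneg _) fun i _ => h _ _
      _ = (2 : ℚ) ^ (2 * ∑ i, R i) := by
          rw [Finset.prod_pow_eq_pow_sum, Finset.sum_add_distrib, Equiv.sum_comp σ R, two_mul]
  rcases Int.units_eq_one_or (Equiv.Perm.sign σ) with h2 | h2
  · rw [h2, one_smul]; exact h1
  · rw [h2, Units.neg_smul, one_smul, padicNorm.neg]; exact h1

theorem sum_le (m : ℕ) : ∀ F : ℕ, 6 * ∑ i ∈ Finset.range m, (F - 3 * i) ≤ F ^ 2 + 3 * F + 2 := by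
  induction m with
  | zero => intro F; simp
  | succ m ih =>
    intro F
    rw [Finset.sum_range_succ']
    rcases Nat.lt_or_ge F 3 with h | h
    · have : ∑ i ∈ Finset.range m, (F - 3 * (i + 1)) = 0 := by
        refine Finset.sum_eq_zero fun i _ => ?_
        omega
      rw [this]
      interval_cases F <;> simp
    · obtain ⟨F', rfl⟩ : ∃ F', F = F' + 3 := ⟨F - 3, by omega⟩
      have : ∑ i ∈ Finset.range m, (F' + 3 - 3 * (i + 1)) = ∑ i ∈ Finset.range m, (F' - 3 * i) := by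
        refine Finset.sum_congr rfl fun i _ => ?_
        omega
      rw [this, Nat.mul_zero, Nat.sub_zero]
      have := ih F'
      nlinarith

theorem kf_int (p t : ℕ) (hp : 1 ≤ p) : ∃ k : ℤ, kf p ((X - 2) ^ t) = k := by
  have hdeg : ((X - 2 : ℤ[X]) ^ t).natDegree ≤ t := by
    refine natDegree_pow_le.trans ?_
    have : (X - 2 : ℤ[X]).natDegree ≤ 1 := by compute_degree
    nlinarith
  obtain ⟨k, Φ, -, -, h⟩ := sol_int p hp (4 * p + t) (by omega) ((X - 2) ^ t) (by omega)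
  have e : ((X - 2 : ℤ[X]) ^ t).map (Int.castRingHom ℚ) = (X - 2) ^ t := by
    simp only [Polynomial.map_pow, Polynomial.map_sub, Polynomial.map_X, Polynomial.map_ofNat]
  rw [e] at h
  exact ⟨k, (eq_of_Sl hp h).1⟩

/-- the entries -/
theorem entry (p E t : ℕ) (hp : 1 ≤ p) (a : ℤ) (b : ℕ) (hb : 1 ≤ b)
    (h1 : padicNorm 2 (bf p ((X - 2) ^ t)) * 2 ^ (3 * t / 2) ≤ (2 : ℚ) ^ E) (r : ℕ)
    (hr : E ≤ r + 3 * t / 2) :
    padicNorm 2 ((b : ℚ) * Nz p (a / b) ((X - 2) ^ t)) ≤ (2 : ℚ) ^ r := by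
  obtain ⟨k, hk⟩ := kf_int p t hp
  have hb0 : (b : ℚ) ≠ 0 := by positivity
  have e : (b : ℚ) * Nz p (a / b) ((X - 2) ^ t) = ((a * k : ℤ) : ℚ) + b * bf p ((X - 2) ^ t) := by
    unfold Nz
    rw [hk]
    push_cast
    field_simp
  rw [e]
  have h2 : padicNorm 2 (((a * k : ℤ) : ℚ)) ≤ 1 := padicNorm.of_int _
  have h3 : padicNorm 2 ((b : ℚ)) ≤ 1 := padicNorm.of_nat _
  have h4 : padicNorm 2 (bf p ((X - 2) ^ t)) ≤ (2 : ℚ) ^ r := by
    have h5 : (2 : ℚ) ^ E ≤ 2 ^ r * 2 ^ (3 * t / 2) := by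
      rw [← pow_add]
      exact pow_le_pow_right₀ (by norm_num) hr
    have h6 : (0 : ℚ) < 2 ^ (3 * t / 2) := by positivity
    exact le_of_mul_le_mul_right (h1.trans h5) h6
  refine (padicNorm.nonarchimedean).trans (max_le ?_ ?_)
  · exact h2.trans (one_le_pow₀ (by norm_num))
  · rw [padicNorm.mul]
    calc padicNorm 2 (b : ℚ) * padicNorm 2 (bf p ((X - 2) ^ t)) ≤ 1 * (2 : ℚ) ^ r :=
          mul_le_mul h3 h4 (padicNorm.nonneg _) (by norm_num)
      _ = 2 ^ r := one_mul _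

theorem bound (K : ℕ) (hK : ∀ p t : ℕ, 1 ≤ p → t ≤ 2 * p →
      padicNorm 2 (bf p ((X - 2) ^ t)) * 2 ^ (3 * t / 2) ≤ (2 : ℚ) ^ (p + K * (Nat.log 2 p + 1)))
    (p : ℕ) (hp : 1 ≤ p) (a : ℤ) (b : ℕ) (hb : 1 ≤ b) :
    ∃ s : ℕ, padicNorm 2 ((b : ℚ) ^ (p + 1) * DET p (a / b)) ≤ (2 : ℚ) ^ s ∧
      6 * s ≤ (p + K * (Nat.log 2 p + 1) + 4) ^ 2 + 3 * (p + K * (Nat.log 2 p + 1) + 4) + 2 +
        12 * (p + 1) := by
  obtain ⟨E, hE⟩ : ∃ E, E = p + K * (Nat.log 2 p + 1) := ⟨_, rfl⟩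
  obtain ⟨R, hR⟩ : ∃ R : ℕ → ℕ, ∀ i, R i = (E + 4 - 3 * i) / 2 + 1 := ⟨_, fun _ => rfl⟩
  have hdet : (b : ℚ) ^ (p + 1) * DET p (a / b) =
      (Matrix.of fun i j : Fin (p + 1) =>
        (b : ℚ) * Nz p (a / b) ((X - 2) ^ ((i : ℕ) + (j : ℕ)))).det := by
    rw [DET_basis p hp (a / b) (fun i => (X - 2) ^ i) (fun i _ => by
      have h1 : (X - 2 : ℚ[X]).Monic := by
        have := monic_X_sub_C (2 : ℚ)
        rwa [map_ofNat] at this
      have h2 : (X - 2 : ℚ[X]).natDegree = 1 := by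
        have := natDegree_X_sub_C (2 : ℚ)
        rwa [map_ofNat] at this
      exact ⟨h1.pow i, by rw [h1.natDegree_pow, h2, mul_one]⟩)]
    have : (Matrix.of fun i j : Fin (p + 1) =>
        (b : ℚ) * Nz p (a / b) ((X - 2) ^ ((i : ℕ) + (j : ℕ)))) =
        (b : ℚ) • (Matrix.of fun i j : Fin (p + 1) =>
          Nz p (a / b) ((X - 2) ^ (i : ℕ) * (X - 2) ^ (j : ℕ))) := by
      ext i j
      rw [Matrix.smul_apply, Matrix.of_apply, Matrix.of_apply, pow_add, smul_eq_mul]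
    rw [this, Matrix.det_smul, Fintype.card_fin]
  refine ⟨2 * ∑ i : Fin (p + 1), R i, ?_, ?_⟩
  · rw [hdet]
    refine det_le _ (fun i => R i) fun i j => ?_
    rw [Matrix.of_apply]
    have hi := i.2
    have hj := j.2
    refine entry p E _ hp a b hb (by rw [hE]; exact hK p _ hp (by omega)) _ ?_
    rw [hR, hR]
    omega
  · rw [← hE]
    have e1 : ∑ i : Fin (p + 1), R i = ∑ i ∈ Finset.range (p + 1), R i :=
      (Finset.sum_range R).symm
    have e2 : 2 * ∑ i ∈ Finset.range (p + 1), R i ≤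
        ∑ i ∈ Finset.range (p + 1), ((E + 4) - 3 * i) + 2 * (p + 1) := by
      rw [Finset.mul_sum]
      calc ∑ i ∈ Finset.range (p + 1), 2 * R i ≤ ∑ i ∈ Finset.range (p + 1), ((E + 4 - 3 * i) + 2) := by
            refine Finset.sum_le_sum fun i _ => ?_
            rw [hR]
            omega
        _ = _ := by
            rw [Finset.sum_add_distrib]
            simp
            ring
    have e3 := sum_le (p + 1) (E + 4)
    rw [e1]
    omega

theorem small (K : ℕ) (δ : ℝ) (hδ : 0 < δ) :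
    ∀ᶠ p : ℕ in atTop, ((K * (Nat.log 2 p + 1) + 4 : ℕ) : ℝ) ≤ δ * p := by
  have h1 : ∀ᶠ x : ℝ in atTop, |Real.log x| ≤ (δ * Real.log 2 / (2 * (K + 1))) * |x| := by
    have := (Asymptotics.isLittleO_iff.1 Real.isLittleO_log_id_atTop)
      (show (0 : ℝ) < δ * Real.log 2 / (2 * (K + 1)) by
        have := Real.log_pos (show (1 : ℝ) < 2 by norm_num)
        positivity)
    exact this
  have h2 := tendsto_natCast_atTop_atTop (R := ℝ) |>.eventually h1
  filter_upwards [h2, eventually_ge_atTop ⌈2 * ((K : ℝ) + 4) / δ⌉₊, eventually_ge_atTop 1]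
    with p hp hp2 hp1
  have hl2 := Real.log_pos (show (1 : ℝ) < 2 by norm_num)
  have a1 : ((Nat.log 2 p : ℕ) : ℝ) * Real.log 2 ≤ Real.log p := by
    have : (2 : ℝ) ^ Nat.log 2 p ≤ p := by exact_mod_cast Nat.pow_log_le_self 2 (by omega)
    have := Real.log_le_log (by positivity) this
    rwa [Real.log_pow] at this
  have a2 : Real.log p ≤ (δ * Real.log 2 / (2 * (K + 1))) * p := by
    have := (le_abs_self _).trans hp
    rwa [abs_of_nonneg (by positivity : (0 : ℝ) ≤ (p : ℝ))] at this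
  have a3 : ((Nat.log 2 p : ℕ) : ℝ) ≤ δ / (2 * (K + 1)) * p := by
    have h3 : ((Nat.log 2 p : ℕ) : ℝ) * Real.log 2 ≤ (δ / (2 * (K + 1)) * p) * Real.log 2 := by
      refine (a1.trans a2).trans (le_of_eq ?_)
      ring
    exact le_of_mul_le_mul_right h3 hl2
  have a4 : 2 * ((K : ℝ) + 4) / δ ≤ p := (Nat.le_ceil _).trans (by exact_mod_cast hp2)
  rw [div_le_iff₀ hδ] at a4
  have a5 : (K : ℝ) * (Nat.log 2 p : ℕ) ≤ δ / 2 * p := by
    calc (K : ℝ) * (Nat.log 2 p : ℕ) ≤ (K + 1) * (δ / (2 * (K + 1)) * p) := by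
          gcongr
          linarith
      _ = δ / 2 * p := by field_simp
  push_cast
  nlinarith

/-- PH4 -/
theorem two (h1 : Pool.Agent.Y795.PiH.S_two1) : Pool.Agent.Y795.PiH.S_two := by
  obtain ⟨K, hK⟩ := h1
  intro ε hε
  obtain ⟨δ, hδ0, hδ1, hδε⟩ : ∃ δ : ℝ, 0 < δ ∧ δ ≤ 1 ∧ 4 * δ ≤ ε :=
    ⟨min 1 (ε / 4), by positivity, min_le_left _ _, by
      have := min_le_right 1 (ε / 4); linarith⟩
  filter_upwards [small K δ hδ0, eventually_ge_atTop ⌈32 / δ⌉₊, eventually_ge_atTop 1]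
    with p hp hp2 hp1 a b hb hD
  obtain ⟨s, hs1, hs2⟩ := bound K hK p hp1 a b hb
  have hl2 := Real.log_pos (show (1 : ℝ) < 2 by norm_num)
  have hl2' : Real.log 2 ≤ 1 := by
    have := Real.log_two_lt_d9
    linarith
  have hne : (b : ℚ) ^ (p + 1) * DET p (a / b) ≠ 0 :=
    mul_ne_zero (pow_ne_zero _ (by positivity)) hD
  have hpos : 0 < padicNorm 2 ((b : ℚ) ^ (p + 1) * DET p (a / b)) :=
    lt_of_le_of_ne (padicNorm.nonneg _) (padicNorm.nonzero hne).symm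
  have b1 : Real.log ((padicNorm 2 ((b : ℚ) ^ (p + 1) * DET p (a / b)) : ℚ) : ℝ) ≤
      s * Real.log 2 := by
    rw [← Real.log_pow]
    refine Real.log_le_log (by exact_mod_cast hpos) ?_
    exact_mod_cast hs1
  refine b1.trans ?_
  obtain ⟨L, hL⟩ : ∃ L : ℝ, L = ((K * (Nat.log 2 p + 1) + 4 : ℕ) : ℝ) := ⟨_, rfl⟩
  rw [← hL] at hp
  have hL0 : 0 ≤ L := by rw [hL]; positivity
  have c1 : 6 * (s : ℝ) ≤ (p + L) ^ 2 + 3 * (p + L) + 2 + 12 * (p + 1) := by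
    have : ((6 * s : ℕ) : ℝ) ≤ (((p + K * (Nat.log 2 p + 1) + 4) ^ 2 +
      3 * (p + K * (Nat.log 2 p + 1) + 4) + 2 + 12 * (p + 1) : ℕ) : ℝ) := by exact_mod_cast hs2
    rw [hL]
    push_cast at this ⊢
    linarith
  have c2 : 32 / δ ≤ (p : ℝ) := (Nat.le_ceil _).trans (by exact_mod_cast hp2)
  rw [div_le_iff₀ hδ0] at c2
  have c3 : (1 : ℝ) ≤ p := by exact_mod_cast hp1
  have c4 : 6 * (s : ℝ) ≤ p ^ 2 + 4 * δ * p ^ 2 := by
    have d1 : p * L ≤ δ * p ^ 2 := by nlinarith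
    have d2 : L ^ 2 ≤ δ * p ^ 2 := by
      have : L ≤ p := by nlinarith
      nlinarith
    have d3 : (32 : ℝ) * p ≤ δ * p ^ 2 := by nlinarith
    nlinarith
  have c5 : (s : ℝ) ≤ (1 / 6 + 2 * δ / 3) * p ^ 2 := by nlinarith
  calc (s : ℝ) * Real.log 2 ≤ ((1 / 6 + 2 * δ / 3) * p ^ 2) * Real.log 2 :=
        mul_le_mul_of_nonneg_right c5 hl2.le
    _ = (Real.log 2 / 6 + 2 * δ / 3 * Real.log 2) * p ^ 2 := by ring
    _ ≤ (Real.log 2 / 6 + ε) * p ^ 2 := by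
        refine mul_le_mul_of_nonneg_right ?_ (by positivity)
        have : 2 * δ / 3 * Real.log 2 ≤ 2 * δ / 3 := mul_le_of_le_one_right (by positivity) hl2'
        linarith


end Pool.Agent.Y434.PiH
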